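import Mathlib

set_option autoImplicit false

namespace Pool.Agent.MP_10e961_gt

open Set Topology MeasureTheory

/-- The space `C_p(Z)`. -/
abbrev Cp (Z : Type) [TopologicalSpace Z] : Type := {f : Z → ℝ // Continuous f}

section Bump

variable {X : Type} [TopologicalSpace X]

/-- Bump functions for a closed set and a finite set in a completely regular space. -/
lemma exists_bump [CompletelyRegularSpace X] (F : Set X) (hF : IsClosed F) (G : Finset X)
    (hG : ∀ x ∈ G, x ∉ F) : ∃ l : X → ℝ, Continuous l ∧ (∀ x, 0 ≤ l x) ∧ (∀ x, l x ≤ 1) ∧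
      (∀ x ∈ F, l x = 0) ∧ (∀ x ∈ G, l x = 1) := by
  classical
  have key : ∀ x : X, ∃ f : X → ℝ, Continuous f ∧ (∀ y, 0 ≤ f y) ∧ (∀ y, f y ≤ 1) ∧
      (x ∉ F → f x = 0) ∧ (∀ y ∈ F, f y = 1) := by
    intro x
    by_cases hx : x ∈ F
    · exact ⟨fun _ => 1, continuous_const, fun _ => zero_le_one, fun _ => le_rfl,
        fun h => (h hx).elim, fun _ _ => rfl⟩
    · obtain ⟨f, hf, hfx, hfF⟩ := CompletelyRegularSpace.completely_regular x F hF hx
      refine ⟨fun y => (f y : ℝ), continuous_subtype_val.comp hf, fun y => (f y).2.1,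
        fun y => (f y).2.2, fun _ => by simp [hfx], fun y hy => ?_⟩
      have := hfF hy
      simp [this]
  choose f hf hf0 hf1 hfx hfF using key
  refine ⟨fun y => 1 - ∏ x ∈ G, f x y, ?_, ?_, ?_, ?_, ?_⟩
  · exact continuous_const.sub (continuous_finsetProd _ fun x _ => hf x)
  · intro y
    have : ∏ x ∈ G, f x y ≤ 1 := Finset.prod_le_one (fun x _ => hf0 x y) (fun x _ => hf1 x y)
    linarith
  · intro y
    have : 0 ≤ ∏ x ∈ G, f x y := Finset.prod_nonneg (fun x _ => hf0 x y)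
    linarith
  · intro y hy
    have : ∏ x ∈ G, f x y = 1 := Finset.prod_eq_one (fun x _ => hfF x y hy)
    simp [this]
  · intro y hy
    have : ∏ x ∈ G, f x y = 0 := Finset.prod_eq_zero hy (hfx y (hG y hy))
    simp [this]

/-- Interpolation at finitely many points. -/
lemma exists_interp [T35Space X] (G : Finset X) (v : X → ℝ) :
    ∃ f : X → ℝ, Continuous f ∧ ∀ x ∈ G, f x = v x := by
  classical
  have key : ∀ x : X, ∃ l : X → ℝ, Continuous l ∧ (∀ y ∈ G.erase x, l y = 0) ∧ l x = 1 := by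
    intro x
    obtain ⟨l, hl, _, _, hl0, hl1⟩ := exists_bump (X := X) (G.erase x : Set X)
      (Finset.finite_toSet _).isClosed {x} (by simp)
    exact ⟨l, hl, fun y hy => hl0 y (by exact_mod_cast hy), hl1 x (by simp)⟩
  choose l hl hl0 hl1 using key
  refine ⟨fun y => ∑ x ∈ G, v x * l x y, ?_, ?_⟩
  · exact continuous_finsetSum _ fun x _ => continuous_const.mul (hl x)
  · intro y hy
    show ∑ x ∈ G, v x * l x y = v y
    rw [Finset.sum_eq_single y]
    · rw [hl1, mul_one]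
    · intro x hx hxy
      rw [hl0 x y (Finset.mem_erase.mpr ⟨Ne.symm hxy, hy⟩), mul_zero]
    · intro h; exact (h hy).elim

end Bump

/-- Basic neighbourhoods in `C_p(X)`. -/
lemma cp_nbhd {X : Type} [TopologicalSpace X] {G : Set (Cp X)} (hG : IsOpen G) {u : Cp X}
    (hu : u ∈ G) : ∃ (I : Finset X) (δ : ℝ),
      0 < δ ∧ ∀ w : Cp X, (∀ x ∈ I, |w.1 x - u.1 x| < δ) → w ∈ G := by
  classical
  obtain ⟨O, hO, rfl⟩ := isOpen_induced_iff.mp hG
  rw [isOpen_pi_iff] at hO
  obtain ⟨I, v, hv, hsub⟩ := hO u.1 hu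
  have : ∀ x ∈ I, ∃ δ : ℝ, 0 < δ ∧ ∀ r : ℝ, |r - u.1 x| < δ → r ∈ v x := by
    intro x hx
    obtain ⟨δ, hδ, hball⟩ := Metric.isOpen_iff.mp (hv x hx).1 _ (hv x hx).2
    refine ⟨δ, hδ, fun r hr => hball ?_⟩
    rw [Metric.mem_ball, Real.dist_eq]; exact hr
  choose! δ hδ hδ2 using this
  obtain ⟨δ', hδ'⟩ : ∃ δ' : ℝ, 0 < δ' ∧ ∀ x ∈ I, δ' ≤ δ x := by
    rcases I.eq_empty_or_nonempty with h | h
    · exact ⟨1, one_pos, by simp [h]⟩
    · exact ⟨I.inf' h δ, (Finset.lt_inf'_iff h).mpr hδ, fun x hx => Finset.inf'_le _ hx⟩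
  refine ⟨I, δ', hδ'.1, fun w hw => hsub fun x hx => ?_⟩
  exact hδ2 x hx _ ((hw x hx).trans_le (hδ'.2 x hx))

section CCC

/-- Basic open boxes in `ℝ ^ X`. -/
structure IsBox {X : Type} (p : Finset X × (X → Set ℝ)) : Prop where
  isOpen : ∀ x, IsOpen (p.2 x)
  nonempty : ∀ x, (p.2 x).Nonempty

/-- The product probability measure on `ℝ ^ X` (standard Gaussian in each coordinate). -/
noncomputable def mu (X : Type) : Measure (X → ℝ) :=
  Measure.infinitePi (fun _ : X => ProbabilityTheory.gaussianReal 0 1)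

lemma gauss_pos {U : Set ℝ} (hU : IsOpen U) (hne : U.Nonempty) :
    0 < ProbabilityTheory.gaussianReal 0 1 U := by
  rw [pos_iff_ne_zero]
  intro h
  have h1 := ProbabilityTheory.gaussianReal_absolutelyContinuous' 0 (v := 1) one_ne_zero h
  exact (hU.measure_pos volume hne).ne' h1

lemma mu_box_pos {X : Type} {p : Finset X × (X → Set ℝ)} (hp : IsBox p) :
    0 < mu X (Set.pi p.1 p.2) := by
  unfold mu
  rw [Measure.infinitePi_pi _ (fun i _ => (hp.isOpen i).measurableSet)]
  rw [pos_iff_ne_zero, Finset.prod_ne_zero_iff]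
  intro x _
  exact (gauss_pos (hp.isOpen x) (hp.nonempty x)).ne'

/-- A pairwise disjoint family of boxes is countable. -/
lemma countable_of_disjoint {X : Type} (S : Set (Finset X × (X → Set ℝ))) (hS : ∀ p ∈ S, IsBox p)
    (hd : S.PairwiseDisjoint fun p => Set.pi (p.1 : Set X) p.2) : S.Countable := by
  have : SFinite (mu X) := by unfold mu; infer_instance
  have h1 := Measure.countable_meas_pos_of_disjoint_iUnion (μ := mu X)
    (As := fun p : S => Set.pi (p.1.1 : Set X) p.1.2)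
    (fun p => MeasurableSet.pi (Finset.countable_toSet _)
      (fun i _ => ((hS p.1 p.2).isOpen i).measurableSet))
    (fun p q hpq => hd p.2 q.2 (fun h => hpq (Subtype.ext h)))
  have h2 : {p : S | 0 < mu X (Set.pi (p.1.1 : Set X) p.1.2)} = univ := by
    ext p
    simp only [Set.mem_ofPred_eq, Set.mem_univ, iff_true]
    exact mu_box_pos (hS p.1 p.2)
  rw [h2] at h1
  exact Set.countable_coe_iff.mp (Set.countable_univ_iff.mp h1)

/-- Two disjoint open subsets of `C_p(X)` can be distinguished by countably many coordinates. -/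
lemma exists_countable_of_disjoint {X : Type} [TopologicalSpace X] [T35Space X]
    (G₁ G₂ : Set (Cp X)) (h₁ : IsOpen G₁) (h₂ : IsOpen G₂) (hd : Disjoint G₁ G₂) :
    ∃ B : Set X, B.Countable ∧ ∀ f ∈ G₁, ∀ g ∈ G₂, ¬ ∀ x ∈ B, f.1 x = g.1 x := by
  classical
  -- a maximal disjoint family of boxes inside `G₁`
  let 𝓢 : Set (Set (Finset X × (X → Set ℝ))) :=
    {S | (∀ p ∈ S, IsBox p ∧ ∀ f : Cp X, f.1 ∈ Set.pi (p.1 : Set X) p.2 → f ∈ G₁) ∧
      S.PairwiseDisjoint fun p => Set.pi (p.1 : Set X) p.2}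
  obtain ⟨S, hS⟩ : ∃ S, Maximal (· ∈ 𝓢) S := by
    apply zorn_subset
    intro c hc hchain
    refine ⟨⋃₀ c, ⟨?_, ?_⟩, fun s hs => Set.subset_sUnion_of_mem hs⟩
    · rintro p ⟨s, hs, hp⟩
      exact (hc hs).1 p hp
    · rintro p ⟨s, hs, hp⟩ q ⟨t, ht, hq⟩ hpq
      rcases hchain.total hs ht with h | h
      · exact (hc ht).2 (h hp) hq hpq
      · exact (hc hs).2 hp (h hq) hpq
  have hScount : S.Countable := countable_of_disjoint S (fun p hp => (hS.prop.1 p hp).1) hS.prop.2
  refine ⟨⋃ p ∈ S, (p.1 : Set X), hScount.biUnion fun p _ => Finset.countable_toSet _, ?_⟩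
  intro f hf g hg hfg
  obtain ⟨I, δ, hδ, hI⟩ := cp_nbhd h₁ hf
  obtain ⟨J, ε, hε, hJ⟩ := cp_nbhd h₂ hg
  let η := min δ ε
  have hη : 0 < η := lt_min hδ hε
  let q : Finset X × (X → Set ℝ) := (I ∪ J, fun x => Metric.ball (f.1 x) η)
  have hq : IsBox q := ⟨fun x => Metric.isOpen_ball, fun x => ⟨f.1 x, Metric.mem_ball_self hη⟩⟩
  have hqG : ∀ w : Cp X, w.1 ∈ Set.pi (q.1 : Set X) q.2 → w ∈ G₁ := by
    intro w hw
    apply hI
    intro x hx
    have := hw x (by simp [q, hx])
    rw [Metric.mem_ball, Real.dist_eq] at this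
    exact this.trans_le (min_le_left _ _)
  -- by maximality, the box `q` meets some member of `S`
  obtain ⟨p, hp, u, hup, huq⟩ : ∃ p ∈ S, ∃ u : X → ℝ, u ∈ Set.pi (p.1 : Set X) p.2 ∧
      u ∈ Set.pi (q.1 : Set X) q.2 := by
    by_contra hcon
    push Not at hcon
    have hmem : insert q S ∈ 𝓢 := by
      refine ⟨?_, ?_⟩
      · intro p hp
        rcases Set.mem_insert_iff.mp hp with rfl | hp
        · exact ⟨hq, hqG⟩
        · exact hS.prop.1 p hp
      · apply hS.prop.2.insert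
        intro p hp _
        refine Set.disjoint_left.mpr fun u hu hu' => ?_
        exact hcon p hp u hu' hu
    have hle : insert q S ≤ S := hS.2 hmem (Set.subset_insert q S)
    have hqS : q ∈ S := hle (Set.mem_insert q S)
    exact hcon q hqS f.1 (fun x _ => Metric.mem_ball_self hη) (fun x _ => Metric.mem_ball_self hη)
  -- the mixed function
  let u' : X → ℝ := fun x => if x ∈ p.1 then u x else g.1 x
  obtain ⟨w, hw, hwu⟩ := exists_interp (p.1 ∪ J) u'
  have hw1 : (⟨w, hw⟩ : Cp X) ∈ G₁ := by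
    apply (hS.prop.1 p hp).2
    intro x hx
    have h1 : w x = u' x := hwu x (by
      rw [Finset.mem_union]; exact Or.inl hx)
    have h2 : u' x = u x := by simp only [u']; rw [if_pos]; exact hx
    show w x ∈ p.2 x
    rw [h1, h2]
    exact hup x hx
  have hw2 : (⟨w, hw⟩ : Cp X) ∈ G₂ := by
    apply hJ
    intro x hx
    have h1 : w x = u' x := hwu x (by
      rw [Finset.mem_union]; exact Or.inr hx)
    show |w x - g.1 x| < ε
    rw [h1]
    by_cases hxp : x ∈ p.1
    · have h2 : u' x = u x := by simp only [u']; rw [if_pos hxp]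
      have h3 : f.1 x = g.1 x := hfg x (Set.mem_biUnion hp hxp)
      have h4 := huq x (by simp [q, hx])
      rw [Metric.mem_ball, Real.dist_eq] at h4
      rw [h2, ← h3]
      exact h4.trans_le (min_le_right _ _)
    · have h2 : u' x = g.1 x := by simp only [u']; rw [if_neg hxp]
      rw [h2, sub_self, abs_zero]
      exact hε
  exact Set.disjoint_left.mp hd hw1 hw2

/-- Every continuous real function on `C_p(X)` depends on countably many coordinates. -/
theorem exists_countable_dep {X : Type} [TopologicalSpace X] [T35Space X] (d : Cp (Cp X)) :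
    ∃ B : Set X, B.Countable ∧ ∀ f g : Cp X, (∀ x ∈ B, f.1 x = g.1 x) → d.1 f = d.1 g := by
  have key : ∀ q : ℚ × ℚ, ∃ B : Set X, B.Countable ∧ (q.1 < q.2 →
      ∀ f g : Cp X, (∀ x ∈ B, f.1 x = g.1 x) → ¬ (d.1 f < q.1 ∧ (q.2 : ℝ) < d.1 g)) := by
    intro q
    by_cases hq : q.1 < q.2
    · obtain ⟨B, hB, h⟩ := exists_countable_of_disjoint {f : Cp X | d.1 f < q.1}
        {f : Cp X | (q.2 : ℝ) < d.1 f} (isOpen_lt d.2 continuous_const)
        (isOpen_lt continuous_const d.2) (by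
          rw [Set.disjoint_left]
          intro f (hf : d.1 f < q.1) (hf' : (q.2 : ℝ) < d.1 f)
          have : (q.1 : ℝ) < q.2 := by exact_mod_cast hq
          linarith)
      exact ⟨B, hB, fun _ f g hfg hcon => h f hcon.1 g hcon.2 hfg⟩
    · exact ⟨∅, Set.countable_empty, fun h => (hq h).elim⟩
  choose B hB h using key
  refine ⟨⋃ q, B q, Set.countable_iUnion hB, ?_⟩
  have main : ∀ f g : Cp X, (∀ x ∈ ⋃ q, B q, f.1 x = g.1 x) → ¬ d.1 f < d.1 g := by
    intro f g hfg hlt
    obtain ⟨q2, h1, h2⟩ := exists_rat_btwn hlt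
    obtain ⟨q1, h3, h4⟩ := exists_rat_btwn h1
    exact h (q1, q2) (by exact_mod_cast h4) f g
      (fun x hx => hfg x (Set.mem_iUnion.mpr ⟨(q1, q2), hx⟩)) ⟨h3, h2⟩
  intro f g hfg
  rcases lt_trichotomy (d.1 f) (d.1 g) with hlt | heq | hgt
  · exact (main f g hfg hlt).elim
  · exact heq
  · exact (main g f (fun x hx => (hfg x hx).symm) hgt).elim

end CCC

end Pool.Agent.MP_10e961_gt
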