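import Pool.Agent.Lib.MP_10e961_gt.Dep

set_option autoImplicit false

namespace Pool.Agent.MP_10e961_gt

open Set Topology Filter

/-- `F` supports the functional `f ↦ T f y` at level `c`. -/
def Supp {M N : Type} [TopologicalSpace M] (T : Cp M → N → ℝ) (c : ℝ) (F : Finset M) (y : N) :
    Prop :=
  ∀ f : Cp M, (∀ p ∈ F, |f.1 p| < c) → |T f y| ≤ 1

section Strata

variable {M N : Type} [TopologicalSpace M] [T35Space M] [TopologicalSpace N]
  {T : Cp M → N → ℝ}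

/-- Cutting off: given `f`, a finite set `I`, and an open set `O ⊇ I`, there is `f'` with `f' = f`
on `I`, `f' = 0` off `O` and `|f'| ≤ |f|`. -/
lemma exists_cutoff (f : Cp M) (I : Finset M) (O : Set M) (hO : IsOpen O) (hI : ∀ q ∈ I, q ∈ O) :
    ∃ f' : Cp M, (∀ q ∈ I, f'.1 q = f.1 q) ∧ (∀ q, q ∉ O → f'.1 q = 0) ∧
      ∀ q, |f'.1 q| ≤ |f.1 q| := by
  obtain ⟨l, hl, hl0, hl1, hlO, hlI⟩ := exists_bump Oᶜ hO.isClosed_compl I
    (fun x hx h => h (hI x hx))
  refine ⟨⟨fun q => l q * f.1 q, hl.mul f.2⟩, fun q hq => ?_, fun q hq => ?_, fun q => ?_⟩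
  · show l q * f.1 q = f.1 q
    rw [hlI q hq, one_mul]
  · show l q * f.1 q = 0
    rw [hlO q hq, zero_mul]
  · show |l q * f.1 q| ≤ |f.1 q|
    rw [abs_mul, abs_of_nonneg (hl0 q)]
    exact mul_le_of_le_one_left (abs_nonneg _) (hl1 q)

omit [TopologicalSpace M] [T35Space M] in
/-- A finite subset of the limit set injects into the supports. -/
lemma card_le_of_meets {K F : Finset M} {U : M → Set M}
    (hU : (K : Set M).PairwiseDisjoint U) (h : ∀ z ∈ K, ∃ p ∈ F, p ∈ U z) :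
    K.card ≤ F.card := by
  classical
  choose! g hg1 hg2 using h
  refine Finset.card_le_card_of_injOn g (fun z hz => hg1 z hz) ?_
  intro z hz w hw hzw
  by_contra hne
  have := hU hz hw hne
  refine (Set.disjoint_left.mp this) (hg2 z hz) ?_
  rw [hzw]
  exact hg2 w hw

/-- **Limits of supports.** -/
lemma exists_limit (hTc : ∀ f, Continuous (T f)) (hT : ∀ y, Continuous fun f => T f y)
    {c : ℝ} (hc : 0 < c) (𝒰 : Ultrafilter N) (y₀ : N) (hy : (𝒰 : Filter N) ≤ 𝓝 y₀) (k : ℕ)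
    (F : N → Finset M) (hF : ∀ᶠ y in 𝒰, (F y).card ≤ k ∧ Supp T c (F y) y) :
    ∃ K : Finset M, K.card ≤ k ∧ Supp T c K y₀ ∧
      ∀ z ∈ K, ∀ O ∈ 𝓝 z, ∀ᶠ y in 𝒰, ∃ p ∈ F y, p ∈ O := by
  classical
  let Ks : Set M := {z | ∀ O ∈ 𝓝 z, ∀ᶠ y in 𝒰, ∃ p ∈ F y, p ∈ O}
  have hcard : ∀ G : Finset M, (G : Set M) ⊆ Ks → G.card ≤ k := by
    intro G hG
    obtain ⟨U, hU1, hU2⟩ := G.finite_toSet.t2_separation
    have h1 : ∀ᶠ y in 𝒰, ∀ z ∈ G, ∃ p ∈ F y, p ∈ U z := by
      rw [eventually_all_finset]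
      intro z hz
      exact hG hz (U z) ((hU1 z).2.mem_nhds (hU1 z).1)
    obtain ⟨y, hy1, hy2⟩ := (h1.and hF).exists
    exact (card_le_of_meets hU2 hy1).trans hy2.1
  have hfin : Ks.Finite := by
    by_contra hinf
    obtain ⟨G, hG, hGc⟩ := Set.Infinite.exists_subset_card_eq hinf (k + 1)
    have := hcard G hG
    omega
  refine ⟨hfin.toFinset, hcard _ (by simp), ?_, ?_⟩
  swap
  · intro z hz
    rw [Set.Finite.mem_toFinset] at hz
    exact hz
  intro f hf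
  by_contra hcon
  rw [not_le] at hcon
  obtain ⟨I, δ, hδ, hI⟩ := cp_nbhd (isOpen_lt continuous_const ((hT y₀).abs)) (u := f) hcon
  have hO : ∀ q : M, ∃ O : Set M, IsOpen O ∧ (q ∈ I ∪ hfin.toFinset → q ∈ O) ∧
      ∀ᶠ y in 𝒰, ∀ p ∈ F y, p ∈ O → |f.1 p| < c := by
    intro q
    by_cases hqK : q ∈ hfin.toFinset
    · exact ⟨{p | |f.1 p| < c}, isOpen_lt f.2.abs continuous_const, fun _ => hf q hqK,
        Eventually.of_forall fun y p _ hp => hp⟩
    · have hq : q ∉ Ks := by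
        rw [Set.Finite.mem_toFinset] at hqK; exact hqK
      have hq' : ∃ O ∈ 𝓝 q, ¬ ∀ᶠ y in 𝒰, ∃ p ∈ F y, p ∈ O := by
        by_contra h
        push Not at h
        exact hq h
      obtain ⟨O, hO, hO2⟩ := hq'
      obtain ⟨O', hO'1, hO'2, hO'3⟩ := mem_nhds_iff.mp hO
      refine ⟨O', hO'2, fun _ => hO'3, ?_⟩
      rw [← Ultrafilter.eventually_not] at hO2
      filter_upwards [hO2] with y hy p hp hpO
      exact (hy ⟨p, hp, hO'1 hpO⟩).elim
  choose O hO1 hO2 hO3 using hO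
  obtain ⟨f', hf'1, hf'2, hf'3⟩ := exists_cutoff f (I ∪ hfin.toFinset)
    (⋃ q ∈ I ∪ hfin.toFinset, O q) (isOpen_biUnion fun q _ => hO1 q)
    (fun q hq => Set.mem_biUnion hq (hO2 q hq))
  have h1 : ∀ᶠ y in 𝒰, |T f' y| ≤ 1 := by
    have h2 : ∀ᶠ y in 𝒰, ∀ q ∈ I ∪ hfin.toFinset, ∀ p ∈ F y, p ∈ O q → |f.1 p| < c := by
      rw [eventually_all_finset]
      exact fun q _ => hO3 q
    filter_upwards [h2, hF] with y hy hFy
    apply hFy.2
    intro p hp
    by_cases hpO : p ∈ ⋃ q ∈ I ∪ hfin.toFinset, O q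
    · obtain ⟨q, hq, hpq⟩ := Set.mem_iUnion₂.mp hpO
      exact (hf'3 p).trans_lt (hy q hq p hp hpq)
    · rw [hf'2 p hpO, abs_zero]; exact hc
  have h2 : |T f' y₀| ≤ 1 :=
    le_of_tendsto (((hTc f').abs.tendsto y₀).mono_left hy) h1
  have h3 : 1 < |T f' y₀| := by
    apply hI f'
    intro x hx
    rw [hf'1 x (Finset.mem_union_left _ hx), sub_self, abs_zero]
    exact hδ
  linarith

/-- The strata are closed. -/
lemma isClosed_strat (hTc : ∀ f, Continuous (T f)) (hT : ∀ y, Continuous fun f => T f y)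
    {c : ℝ} (hc : 0 < c) (k : ℕ) :
    IsClosed {y : N | ∃ F : Finset M, F.card ≤ k ∧ Supp T c F y} := by
  classical
  rw [isClosed_iff_ultrafilter]
  intro y₀ 𝒰 h𝒰 hmem
  have : ∀ y : N, ∃ F : Finset M, (∃ F : Finset M, F.card ≤ k ∧ Supp T c F y) →
      F.card ≤ k ∧ Supp T c F y := by
    intro y
    by_cases h : ∃ F : Finset M, F.card ≤ k ∧ Supp T c F y
    · obtain ⟨F, hF⟩ := h
      exact ⟨F, fun _ => hF⟩
    · exact ⟨∅, fun h' => (h h').elim⟩
  choose F hF using this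
  obtain ⟨K, hK1, hK2, _⟩ := exists_limit hTc hT hc 𝒰 y₀ h𝒰 k F (by
    filter_upwards [hmem] with y hy using hF y hy)
  exact ⟨K, hK1, hK2⟩

omit [TopologicalSpace N] in
/-- If `k` is the minimal size of a support of `y₀`, then `y₀` has finitely many supports of size
at most `k`. -/
lemma finite_supports (hT : ∀ y, Continuous fun f => T f y)
    {c : ℝ} (hc : 0 < c) (y₀ : N) (k : ℕ) (hmin : ∀ F : Finset M, Supp T c F y₀ → k ≤ F.card) :
    {F : Finset M | F.card ≤ k ∧ Supp T c F y₀}.Finite := by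
  classical
  by_contra hinf
  have hne : (Filter.cofinite ⊓ 𝓟 {F : Finset M | F.card ≤ k ∧ Supp T c F y₀}).NeBot :=
    Filter.cofinite_inf_principal_neBot_iff.mpr hinf
  let 𝒰 : Ultrafilter (Finset M) := Ultrafilter.of
    (Filter.cofinite ⊓ 𝓟 {F : Finset M | F.card ≤ k ∧ Supp T c F y₀})
  have h𝒰 : (𝒰 : Filter (Finset M)) ≤
      Filter.cofinite ⊓ 𝓟 {F : Finset M | F.card ≤ k ∧ Supp T c F y₀} := Ultrafilter.of_le _
  have hF : ∀ᶠ F in (𝒰 : Filter (Finset M)), F.card ≤ k ∧ Supp T c F y₀ := by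
    have := h𝒰.trans inf_le_right
    exact this (mem_principal_self _)
  let Ks : Set M := {z | ∀ᶠ F in (𝒰 : Filter (Finset M)), z ∈ F}
  have hsub : ∀ G : Finset M, (G : Set M) ⊆ Ks → ∀ᶠ F in (𝒰 : Filter (Finset M)), G ⊆ F := by
    intro G hG
    have : ∀ᶠ F in (𝒰 : Filter (Finset M)), ∀ z ∈ G, z ∈ F := by
      rw [eventually_all_finset]; exact fun z hz => hG hz
    exact this
  have hcard : ∀ G : Finset M, (G : Set M) ⊆ Ks → G.card ≤ k := by
    intro G hG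
    obtain ⟨F, h1, h2⟩ := ((hsub G hG).and hF).exists
    exact (Finset.card_le_card h1).trans h2.1
  have hfin : Ks.Finite := by
    by_contra hinf
    obtain ⟨G, hG, hGc⟩ := Set.Infinite.exists_subset_card_eq hinf (k + 1)
    have := hcard G hG
    omega
  have hKs : ((hfin.toFinset : Finset M) : Set M) ⊆ Ks := by simp
  have hsupp : Supp T c hfin.toFinset y₀ := by
    intro f hf
    by_contra hcon
    rw [not_le] at hcon
    obtain ⟨I, δ, hδ, hI⟩ := cp_nbhd (isOpen_lt continuous_const ((hT y₀).abs)) (u := f) hcon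
    have h1 : ∀ᶠ F in (𝒰 : Filter (Finset M)), ∀ q ∈ I, q ∈ F → q ∈ hfin.toFinset := by
      rw [eventually_all_finset]
      intro q _
      by_cases hq : q ∈ Ks
      · exact Eventually.of_forall fun F _ => hfin.mem_toFinset.mpr hq
      · have : ∀ᶠ F in (𝒰 : Filter (Finset M)), ¬ q ∈ F := Ultrafilter.eventually_not.mpr hq
        filter_upwards [this] with F hF hqF
        exact (hF hqF).elim
    obtain ⟨F, ⟨hF1, hF2⟩, hF3⟩ := ((h1.and (hsub _ hKs)).and hF).exists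
    obtain ⟨f', hf'1, hf'2, hf'3⟩ := exists_cutoff f (I ∪ hfin.toFinset)
      ((F \ hfin.toFinset : Finset M) : Set M)ᶜ (Finset.finite_toSet _).isClosed.isOpen_compl (by
        intro q hq hqF
        rw [Finset.mem_coe, Finset.mem_sdiff] at hqF
        rcases Finset.mem_union.mp hq with h | h
        · exact hqF.2 (hF1 q h hqF.1)
        · exact hqF.2 h)
    have h2 : |T f' y₀| ≤ 1 := by
      apply hF3.2
      intro p hp
      by_cases hpK : p ∈ hfin.toFinset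
      · exact (hf'3 p).trans_lt (hf p hpK)
      · rw [hf'2 p (fun h => h (Finset.mem_coe.mpr (Finset.mem_sdiff.mpr ⟨hp, hpK⟩))), abs_zero]
        exact hc
    have h3 : 1 < |T f' y₀| := by
      apply hI f'
      intro x hx
      rw [hf'1 x (Finset.mem_union_left _ hx), sub_self, abs_zero]
      exact hδ
    linarith
  have hk := hmin _ hsupp
  have h4 : ∀ᶠ F in (𝒰 : Filter (Finset M)), F = hfin.toFinset := by
    filter_upwards [hsub _ hKs, hF] with F h1 h2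
    exact (Finset.eq_of_subset_of_card_le h1 (h2.1.trans hk)).symm
  have h5 : ∀ᶠ F in (𝒰 : Filter (Finset M)), F ≠ hfin.toFinset := by
    have := h𝒰.trans inf_le_left
    exact this (Set.Finite.compl_mem_cofinite (Set.finite_singleton _))
  obtain ⟨F, h6, h7⟩ := (h4.and h5).exists
  exact h7 h6

/-- **Upper semicontinuity of supports** at a point whose supports have minimal size `k`. -/
lemma usc_supports (hTc : ∀ f, Continuous (T f)) (hT : ∀ y, Continuous fun f => T f y)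
    {c : ℝ} (hc : 0 < c) (y₀ : N) (k : ℕ) (hmin : ∀ F : Finset M, Supp T c F y₀ → k ≤ F.card)
    (W : Set M) (hW : IsOpen W)
    (hKW : ∀ F : Finset M, F.card ≤ k → Supp T c F y₀ → ∀ p ∈ F, p ∈ W) :
    ∀ᶠ y in 𝓝 y₀, ∀ F : Finset M, F.card ≤ k → Supp T c F y → ∀ p ∈ F, p ∈ W := by
  classical
  by_contra hcon
  have hfr := Filter.not_eventually.mp hcon
  rw [Filter.frequently_iff_neBot] at hfr
  let 𝒰 : Ultrafilter N := Ultrafilter.of
    (𝓝 y₀ ⊓ 𝓟 {y | ¬ ∀ F : Finset M, F.card ≤ k → Supp T c F y → ∀ p ∈ F, p ∈ W})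
  have h𝒰 : (𝒰 : Filter N) ≤
    𝓝 y₀ ⊓ 𝓟 {y | ¬ ∀ F : Finset M, F.card ≤ k → Supp T c F y → ∀ p ∈ F, p ∈ W} :=
    Ultrafilter.of_le _
  have hbad : ∀ᶠ y in (𝒰 : Filter N),
      ¬ ∀ F : Finset M, F.card ≤ k → Supp T c F y → ∀ p ∈ F, p ∈ W :=
    (h𝒰.trans inf_le_right) (mem_principal_self _)
  have : ∀ y : N, ∃ F : Finset M,
      (¬ ∀ F : Finset M, F.card ≤ k → Supp T c F y → ∀ p ∈ F, p ∈ W) →
        (F.card ≤ k ∧ Supp T c F y) ∧ ∃ p ∈ F, p ∉ W := by
    intro y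
    by_cases h : ∀ F : Finset M, F.card ≤ k → Supp T c F y → ∀ p ∈ F, p ∈ W
    · exact ⟨∅, fun h' => (h' h).elim⟩
    · push Not at h
      obtain ⟨F, h1, h2, p, hp, hpW⟩ := h
      exact ⟨F, fun _ => ⟨⟨h1, h2⟩, p, hp, hpW⟩⟩
  choose F hF using this
  have hF' : ∀ᶠ y in (𝒰 : Filter N), (F y).card ≤ k ∧ Supp T c (F y) y := by
    filter_upwards [hbad] with y hy using (hF y hy).1
  obtain ⟨K, hK1, hK2, hK3⟩ := exists_limit hTc hT hc 𝒰 y₀ (h𝒰.trans inf_le_left) k F hF'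
  have hKk : k ≤ K.card := hmin K hK2
  obtain ⟨U, hU1, hU2⟩ := K.finite_toSet.t2_separation
  have h1 : ∀ᶠ y in (𝒰 : Filter N), ∀ z ∈ K, ∃ p ∈ F y, p ∈ U z ∩ W := by
    rw [eventually_all_finset]
    intro z hz
    exact hK3 z hz _ (Filter.inter_mem ((hU1 z).2.mem_nhds (hU1 z).1)
      (hW.mem_nhds (hKW K hK1 hK2 z hz)))
  obtain ⟨y, hy1, hy2⟩ := (h1.and hbad).exists
  obtain ⟨⟨hc1, hc2⟩, p, hp, hpW⟩ := hF y hy2
  choose! g hg1 hg2 using hy1
  have hinj : Set.InjOn g (K : Set M) := by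
    intro z hz w hw hzw
    by_contra hne
    refine (Set.disjoint_left.mp (hU2 hz hw hne)) (hg2 z hz).1 ?_
    rw [hzw]
    exact (hg2 w hw).1
  have hsub : K.image g ⊆ F y := by
    intro p hp
    obtain ⟨z, hz, rfl⟩ := Finset.mem_image.mp hp
    exact hg1 z hz
  have heq : K.image g = F y := by
    apply Finset.eq_of_subset_of_card_le hsub
    rw [Finset.card_image_of_injOn hinj]
    exact hc1.trans hKk
  rw [← heq] at hp
  obtain ⟨z, hz, rfl⟩ := Finset.mem_image.mp hp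
  exact hpW (hg2 z hz).2

end Strata

end Pool.Agent.MP_10e961_gt
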